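import Pool.Agent.Lib_helper64.LDS.Defs
import Pool.Agent.Lib_helper33.Renyi.Align

/-!
# LDS, block SER: the commuting series
-/

set_option autoImplicit false

open scoped ENNReal ComplexOrder Kronecker

namespace Pool.Agent.LDS

open Matrix MeasureTheory
open Pool.Agent.Lib_helper98.Renyi Pool.Agent.Lib_helper59.Lieb Pool.Agent.Lib_helper59.RCT

variable {n m : Type} [Fintype n] [DecidableEq n] [Fintype m] [DecidableEq m]

namespace SER

/-! ### words -/

theorem pwf_words (Q : Matrix m m ℝ) (w f : m → ℝ) (k : ℕ) (i : m) :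
    ∑ x : Fin k → m, pwf Q f i (List.ofFn x) * (w i * ((List.ofFn x).map w).prod) =
      ((diagonal w * Q) ^ k *ᵥ fun l => w l * f l) i := by
  induction k generalizing i with
  | zero => simp [pwf, mul_comm]
  | succ k ih =>
    rw [sum_words k (fun y => pwf Q f i y * (w i * (y.map w).prod)), pow_succ', ← mulVec_mulVec]
    rw [show ((diagonal w * Q) *ᵥ ((diagonal w * Q) ^ k *ᵥ fun l => w l * f l)) i =
      ∑ l, w i * Q i l * ((diagonal w * Q) ^ k *ᵥ fun l => w l * f l) l by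
        simp only [mulVec, dotProduct, diagonal_mul]]
    refine Finset.sum_congr rfl fun l _ => ?_
    rw [← ih l, Finset.mul_sum]
    refine Finset.sum_congr rfl fun x _ => ?_
    simp only [pwf, List.map_cons, List.prod_cons]
    ring

theorem words_trace (Q : Matrix m m ℝ) (w : m → ℝ) (k : ℕ) :
    ∑ i, ∑ x : Fin k → m, cwt Q i (List.ofFn x) * (w i * ((List.ofFn x).map w).prod) =
      ((diagonal w * Q) ^ (k + 1)).trace := by
  rw [Matrix.trace]
  refine Finset.sum_congr rfl fun i _ => ?_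
  unfold cwt
  rw [pwf_words, pow_succ, diag_apply, Matrix.mul_apply]
  simp only [mulVec, dotProduct, diagonal_mul]

/-! ### the scalar series -/

theorem trace_map_pow (A : Matrix m m ℝ) (k : ℕ) :
    (((cm A) ^ k).trace).re = (A ^ k).trace := by
  have e : cm A = Complex.ofRealHom.mapMatrix A := rfl
  rw [e, ← map_pow, RingHom.mapMatrix_apply]
  simp [Matrix.trace]

theorem cm_mul (A B : Matrix m m ℝ) : cm (A * B) = cm A * cm B := by
  have e : ∀ X : Matrix m m ℝ, cm X = Complex.ofRealHom.mapMatrix X := fun _ => rfl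
  rw [e, e, e, map_mul]

theorem cm_diagonal (w : m → ℝ) : cm (diagonal w) = dg w := by
  unfold cm
  rw [diagonal_map (by simp)]

theorem hasSum_trace {T : Matrix m m ℂ} (hT : T.PosSemidef) (h1 : (1 - T).PosDef) :
    HasSum (fun k : ℕ => ((T ^ (k + 1)).trace).re / (k + 1)) (-Ld (1 - T)) := by
  obtain ⟨U, l, hU, hU', hTU⟩ := Pool.Agent.Lib_helper33.Renyi.exists_diag hT.isHermitian
  have e1 : (1 - T) = U * dg (fun i => 1 - l i) * Uᴴ := by
    have : dg (fun i => 1 - l i) = 1 - diagonal (fun i => (l i : ℂ)) := by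
      ext i j
      by_cases hij : i = j
      · subst hij; simp
      · simp [hij]
    rw [this, Matrix.mul_sub, Matrix.sub_mul, Matrix.mul_one, hU', ← hTU]
  have hl0 : ∀ i, 0 ≤ l i := by
    have h2 : (Uᴴ * T * U).PosSemidef := hT.conjTranspose_mul_mul_same U
    have h3 : Uᴴ * T * U = diagonal (fun i => (l i : ℂ)) := by
      rw [hTU]
      calc Uᴴ * (U * diagonal (fun i => (l i : ℂ)) * Uᴴ) * U =
          (Uᴴ * U) * diagonal (fun i => (l i : ℂ)) * (Uᴴ * U) := by simp only [Matrix.mul_assoc]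
        _ = _ := by rw [hU, Matrix.one_mul, Matrix.mul_one]
    rw [h3, posSemidef_diagonal_iff] at h2
    intro i
    exact_mod_cast h2 i
  have hl1 : ∀ i, l i < 1 := by
    have h2 : (Uᴴ * (1 - T) * U).PosDef := by
      refine h1.conjTranspose_mul_mul_same ?_
      intro x y hxy
      have h4 : Uᴴ *ᵥ (U *ᵥ x) = Uᴴ *ᵥ (U *ᵥ y) := congrArg (fun z => Uᴴ *ᵥ z) hxy
      rwa [mulVec_mulVec, mulVec_mulVec, hU, one_mulVec, one_mulVec] at h4
    have h3 : Uᴴ * (1 - T) * U = dg (fun i => 1 - l i) := by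
      rw [e1]
      calc Uᴴ * (U * dg (fun i => 1 - l i) * Uᴴ) * U =
          (Uᴴ * U) * dg (fun i => 1 - l i) * (Uᴴ * U) := by simp only [Matrix.mul_assoc]
        _ = _ := by rw [hU, Matrix.one_mul, Matrix.mul_one]
    rw [h3, Matrix.posDef_diagonal_iff] at h2
    intro i
    have h4 : (0 : ℝ) < 1 - l i := by exact_mod_cast h2 i
    linarith
  have e2 : Ld (1 - T) = ∑ i, Real.log (1 - l i) := by
    rw [Ld, e1]
    exact rtr_cfc_dg hU _ _
  have e3 : ∀ k : ℕ, ((T ^ (k + 1)).trace).re = ∑ i, l i ^ (k + 1) := by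
    intro k
    rw [hTU, Pool.Agent.Lib_helper33.Renyi.trace_pow_diag l hU hU', Complex.ofReal_re]
  rw [e2, ← Finset.sum_neg_distrib]
  simp only [e3, Finset.sum_div]
  refine hasSum_sum fun i _ => ?_
  exact Real.hasSum_pow_div_log_of_abs_lt_one (by rw [abs_of_nonneg (hl0 i)]; exact hl1 i)

theorem det_re_pos {σ : Type} [Fintype σ] [DecidableEq σ] {X : Matrix σ σ ℂ} (h : X.PosDef) :
    0 < X.det.re := (Complex.lt_def.mp h.det_pos).1

theorem det_eq_re {σ : Type} [Fintype σ] [DecidableEq σ] {X : Matrix σ σ ℂ} (h : X.PosDef) :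
    X.det = ((X.det.re : ℝ) : ℂ) :=
  Complex.ext (by simp) (by simpa using (Complex.lt_def.mp h.det_pos).2.symm)

theorem Ld_of_det_mul {σ τ υ : Type} [Fintype σ] [DecidableEq σ] [Fintype τ] [DecidableEq τ]
    [Fintype υ] [DecidableEq υ] {X : Matrix σ σ ℂ} {Y : Matrix τ τ ℂ} {Z : Matrix υ υ ℂ}
    (hX : X.PosDef) (hY : Y.PosDef) (hZ : Z.PosDef) (h : X.det = Y.det * Z.det) :
    Ld X = Ld Y + Ld Z := by
  rw [Ld_eq_ldet hX, Ld_eq_ldet hY, Ld_eq_ldet hZ, Pool.Agent.LDK.ldet, Pool.Agent.LDK.ldet,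
    Pool.Agent.LDK.ldet, ← Real.log_mul (det_re_pos hY).ne' (det_re_pos hZ).ne', h,
    det_eq_re hY, det_eq_re hZ]
  norm_cast

/-- one eigenvector -/
theorem scalar {u : m → ℝ} (hu : ∀ i, 0 < u i) {Q : Matrix m m ℝ} (hQ : (cm Q).PosSemidef)
    (hN : (dg u - cm Q).PosDef) :
    HasSum (fun k : ℕ => (∑ i, ∑ x : Fin k → m, cwt Q i (List.ofFn x) *
        ((u i)⁻¹ * ((List.ofFn x).map fun j => (u j)⁻¹).prod)) / (k + 1))
      (∑ i, Real.log (u i) - Ld (dg u - cm Q)) := by
  set D : Matrix m m ℂ := dg (fun i => (Real.sqrt (u i))⁻¹) with hD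
  set D' : Matrix m m ℂ := dg (fun i => Real.sqrt (u i)) with hD'
  have hs : ∀ i, Real.sqrt (u i) ≠ 0 := fun i => (Real.sqrt_pos.mpr (hu i)).ne'
  have hDD' : D * D' = 1 := by
    rw [hD, hD', diagonal_mul_diagonal, ← diagonal_one]
    congr 1
    ext i
    rw [← Complex.ofReal_mul, inv_mul_cancel₀ (hs i), Complex.ofReal_one]
  have hD'D : D' * D = 1 := by
    rw [hD, hD', diagonal_mul_diagonal, ← diagonal_one]
    congr 1
    ext i
    rw [← Complex.ofReal_mul, mul_inv_cancel₀ (hs i), Complex.ofReal_one]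
  have hDh : Dᴴ = D := by
    rw [hD, diagonal_conjTranspose]
    congr 1
    ext i
    simp only [Pi.star_apply]
    exact Complex.conj_ofReal _
  have hDu : D * dg u * D = 1 := by
    rw [hD, diagonal_mul_diagonal, diagonal_mul_diagonal, ← diagonal_one]
    congr 1
    ext i
    rw [← Complex.ofReal_mul, ← Complex.ofReal_mul]
    have : (Real.sqrt (u i))⁻¹ * u i * (Real.sqrt (u i))⁻¹ = 1 := by
      have h2 := Real.mul_self_sqrt (hu i).le
      calc (Real.sqrt (u i))⁻¹ * u i * (Real.sqrt (u i))⁻¹ =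
          (Real.sqrt (u i))⁻¹ * (Real.sqrt (u i) * Real.sqrt (u i)) * (Real.sqrt (u i))⁻¹ := by
            rw [h2]
        _ = ((Real.sqrt (u i))⁻¹ * Real.sqrt (u i)) * (Real.sqrt (u i) * (Real.sqrt (u i))⁻¹) := by
            ring
        _ = 1 := by rw [inv_mul_cancel₀ (hs i), mul_inv_cancel₀ (hs i), one_mul]
    rw [this, Complex.ofReal_one]
  have hD2 : D * D = dg (fun i => (u i)⁻¹) := by
    rw [hD, diagonal_mul_diagonal]
    congr 1
    ext i
    rw [← Complex.ofReal_mul, ← mul_inv, Real.mul_self_sqrt (hu i).le]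
  set T : Matrix m m ℂ := D * cm Q * D with hT
  have hTp : T.PosSemidef := by
    have := hQ.conjTranspose_mul_mul_same D
    rwa [hDh] at this
  have e1 : D * (dg u - cm Q) * D = 1 - T := by
    rw [Matrix.mul_sub, Matrix.sub_mul, hDu]
  have hT1 : (1 - T).PosDef := by
    rw [← e1]
    have h3 : (Dᴴ * (dg u - cm Q) * D).PosDef := by
      refine hN.conjTranspose_mul_mul_same ?_
      intro x y hxy
      have h4 : D' *ᵥ (D *ᵥ x) = D' *ᵥ (D *ᵥ y) := congrArg (fun z => D' *ᵥ z) hxy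
      rwa [mulVec_mulVec, mulVec_mulVec, hD'D, one_mulVec, one_mulVec] at h4
    rwa [hDh] at h3
  have hmain := hasSum_trace hTp hT1
  have e2 : ∀ k : ℕ, ((T ^ (k + 1)).trace).re = ∑ i, ∑ x : Fin k → m, cwt Q i (List.ofFn x) *
      ((u i)⁻¹ * ((List.ofFn x).map fun j => (u j)⁻¹).prod) := by
    intro k
    rw [words_trace Q (fun i => (u i)⁻¹) k, ← trace_map_pow, cm_mul, cm_diagonal, ← hD2]
    have h := Pool.Agent.Lib_helper33.Renyi.trn_cycle (D * cm Q) D (Nat.succ_ne_zero k)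
    unfold Pool.Agent.Lib_helper33.Renyi.trn at h
    rw [Matrix.mul_assoc D D, ← h]
  have e3 : Ld (dg u - cm Q) = ∑ i, Real.log (u i) + Ld (1 - T) := by
    have hE : (dg u).PosDef := by
      rw [Matrix.posDef_diagonal_iff]
      intro i
      exact_mod_cast hu i
    have h1 : Ld (dg u) = ∑ i, Real.log (u i) := by
      have := rtr_cfc_dg (U := (1 : Matrix m m ℂ)) (by simp) Real.log u
      simpa [Ld] using this
    rw [← h1]
    refine Ld_of_det_mul hN hE hT1 ?_
    have h5 : D.det * (dg u - cm Q).det * D.det = (1 - T).det := by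
      rw [← det_mul, ← det_mul, e1]
    have h6 : D.det * (dg u).det * D.det = 1 := by
      rw [← det_mul, ← det_mul, hDu, det_one]
    rw [← h5]
    linear_combination (-(dg u - cm Q).det) * h6
  rw [e3]
  simp only [← e2]
  have e4 : ∑ i, Real.log (u i) - (∑ i, Real.log (u i) + Ld (1 - T)) = -Ld (1 - T) := by ring
  rw [e4]
  exact hmain

/-- the net of diagonal letters is block diagonal over the second index -/
theorem net_diag (u : m → n → ℝ) (Q : Matrix m m ℝ) :
    net (fun i => dg (u i)) Q = blockDiagonal fun y => dg (fun i => u i y) - cm Q := by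
  ext ⟨i, y⟩ ⟨j, z⟩
  simp only [net, bdm, Matrix.sub_apply, Matrix.of_apply, blockDiagonal_apply, kroneckerMap_apply,
    diagonal_apply, Matrix.one_apply]
  by_cases hyz : y = z
  · subst hyz
    by_cases hij : i = j
    · subst hij; simp
    · simp [hij]
  · simp [hyz]

theorem net_conj {V : Matrix n n ℂ} (hV' : V * Vᴴ = 1) (U : m → Matrix n n ℂ)
    (Q : Matrix m m ℝ) :
    net (fun i => V * U i * Vᴴ) Q = ((1 : Matrix m m ℂ) ⊗ₖ V) * net U Q *
      ((1 : Matrix m m ℂ) ⊗ₖ V)ᴴ := by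
  have h1 : ((1 : Matrix m m ℂ) ⊗ₖ V) * (cm Q ⊗ₖ (1 : Matrix n n ℂ)) *
      ((1 : Matrix m m ℂ) ⊗ₖ V)ᴴ = cm Q ⊗ₖ (1 : Matrix n n ℂ) := by
    rw [conjTranspose_kronecker, ← mul_kronecker_mul, ← mul_kronecker_mul, conjTranspose_one,
      Matrix.one_mul, Matrix.mul_one, Matrix.mul_one, hV']
  unfold net
  rw [Matrix.mul_sub, Matrix.sub_mul, h1]
  congr 1
  ext ⟨i, a⟩ ⟨j, b⟩
  rw [Matrix.mul_apply, Fintype.sum_prod_type]
  have e1 : ∀ c z, (((1 : Matrix m m ℂ) ⊗ₖ V) * bdm U) (i, a) (c, z) =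
      if i = c then (V * U i) a z else 0 := by
    intro c z
    rw [Matrix.mul_apply, Fintype.sum_prod_type, Finset.sum_eq_single i]
    · by_cases hic : i = c
      · subst hic
        simp [bdm, Matrix.mul_apply, kroneckerMap_apply]
      · simp [bdm, hic]
    · intro d _ hd
      simp [kroneckerMap_apply, Matrix.one_apply, hd.symm]
    · intro h; exact absurd (Finset.mem_univ _) h
  simp only [e1]
  rw [Finset.sum_eq_single i]
  · by_cases hij : i = j
    · subst hij
      simp [bdm, Matrix.mul_apply, kroneckerMap_apply, conjTranspose_apply]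
    · have : ∀ z, (((1 : Matrix m m ℂ) ⊗ₖ V)ᴴ) (i, z) (j, b) = 0 := by
        intro z
        simp [conjTranspose_apply, kroneckerMap_apply, Ne.symm hij]
      simp only [this, mul_zero, Finset.sum_const_zero]
      simp [bdm, hij]
  · intro c _ hc
    simp [hc.symm]
  · intro h; exact absurd (Finset.mem_univ _) h

end SER

open SER

theorem ser_comm {V : Matrix n n ℂ} (hV : Vᴴ * V = 1) (hV' : V * Vᴴ = 1) (u : m → n → ℝ)
    (hu : ∀ i x, 0 < u i x) (S : Matrix m m ℝ)
    (hM : (net (fun i => V * dg (u i) * Vᴴ) (S * Sᵀ)).PosDef) :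
    HasSum (fun k : ℕ => ∑ i, ∑ x : Fin k → m, cwt (S * Sᵀ) i (List.ofFn x) / (k + 1) *
        ∑ y, ((u i y)⁻¹ * ((List.ofFn x).map fun j => (u j y)⁻¹).prod))
      (∑ i, Ld (V * dg (u i) * Vᴴ) - Ld (net (fun i => V * dg (u i) * Vᴴ) (S * Sᵀ))) := by
  set W : Matrix (m × n) (m × n) ℂ := (1 : Matrix m m ℂ) ⊗ₖ V with hW
  have hWW : Wᴴ * W = 1 := by
    rw [hW, conjTranspose_kronecker, ← mul_kronecker_mul, hV, conjTranspose_one, Matrix.one_mul,
      one_kronecker_one]
  have hWW' : W * Wᴴ = 1 := by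
    rw [hW, conjTranspose_kronecker, ← mul_kronecker_mul, hV', conjTranspose_one, Matrix.one_mul,
      one_kronecker_one]
  have e0 : net (fun i => V * dg (u i) * Vᴴ) (S * Sᵀ) =
      W * net (fun i => dg (u i)) (S * Sᵀ) * Wᴴ := net_conj hV' _ _
  have hM' : (net (fun i => dg (u i)) (S * Sᵀ)).PosDef := by
    have h1 : Wᴴ * net (fun i => V * dg (u i) * Vᴴ) (S * Sᵀ) * W =
        net (fun i => dg (u i)) (S * Sᵀ) := by
      rw [e0]
      calc Wᴴ * (W * net (fun i => dg (u i)) (S * Sᵀ) * Wᴴ) * W =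
          (Wᴴ * W) * net (fun i => dg (u i)) (S * Sᵀ) * (Wᴴ * W) := by
            simp only [Matrix.mul_assoc]
        _ = _ := by rw [hWW, Matrix.one_mul, Matrix.mul_one]
    rw [← h1]
    refine hM.conjTranspose_mul_mul_same ?_
    intro x y hxy
    have h4 : Wᴴ *ᵥ (W *ᵥ x) = Wᴴ *ᵥ (W *ᵥ y) := congrArg (fun z => Wᴴ *ᵥ z) hxy
    rwa [mulVec_mulVec, mulVec_mulVec, hWW, one_mulVec, one_mulVec] at h4
  have hN : ∀ y, (dg (fun i => u i y) - cm (S * Sᵀ)).PosDef := by
    intro y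
    have h1 := hM'.submatrix (e := fun i : m => (i, y)) (fun i j hij => (Prod.mk.inj hij).1)
    have h2 : (net (fun i => dg (u i)) (S * Sᵀ)).submatrix (fun i : m => (i, y))
        (fun i : m => (i, y)) = dg (fun i => u i y) - cm (S * Sᵀ) := by
      rw [net_diag]
      ext i j
      simp [blockDiagonal_apply]
    rwa [h2] at h1
  have hQ : (cm (S * Sᵀ)).PosSemidef := by
    have : cm (S * Sᵀ) = cm S * (cm S)ᴴ := by
      rw [cm_mul]
      congr 1
      ext i j
      simp [cm, conjTranspose_apply]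
    rw [this]
    exact posSemidef_self_mul_conjTranspose _
  have hLd : Ld (net (fun i => V * dg (u i) * Vᴴ) (S * Sᵀ)) =
      ∑ y, Ld (dg (fun i => u i y) - cm (S * Sᵀ)) := by
    rw [Ld_eq_ldet hM]
    have h1 : (net (fun i => V * dg (u i) * Vᴴ) (S * Sᵀ)).det =
        ∏ y, (dg (fun i => u i y) - cm (S * Sᵀ)).det := by
      rw [e0, det_mul, det_mul, mul_right_comm, ← det_mul, hWW', det_one, one_mul, net_diag,
        det_blockDiagonal]
    have h2 : ∏ y, (dg (fun i => u i y) - cm (S * Sᵀ)).det =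
        ((∏ y, (dg (fun i => u i y) - cm (S * Sᵀ)).det.re : ℝ) : ℂ) := by
      push_cast
      exact Finset.prod_congr rfl fun y _ => det_eq_re (hN y)
    rw [Pool.Agent.LDK.ldet, h1, h2, Complex.ofReal_re,
      Real.log_prod fun y _ => (det_re_pos (hN y)).ne']
    refine Finset.sum_congr rfl fun y _ => ?_
    rw [Ld_eq_ldet (hN y), Pool.Agent.LDK.ldet]
  have hLu : ∑ i, Ld (V * dg (u i) * Vᴴ) = ∑ y, ∑ i, Real.log (u i y) := by
    rw [Finset.sum_comm]
    refine Finset.sum_congr rfl fun i _ => ?_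
    rw [Ld]
    exact rtr_cfc_dg hV _ _
  rw [hLd, hLu, ← Finset.sum_sub_distrib]
  have h3 := hasSum_sum (s := Finset.univ) fun y (_ : y ∈ Finset.univ) =>
    scalar (u := fun i => u i y) (fun i => hu i y) hQ (hN y)
  convert h3 using 2 with k
  rw [← Finset.sum_div, Finset.sum_comm (s := (Finset.univ : Finset n)), Finset.sum_div]
  refine Finset.sum_congr rfl fun i _ => ?_
  rw [Finset.sum_comm (s := (Finset.univ : Finset n)), Finset.sum_div]
  refine Finset.sum_congr rfl fun x _ => ?_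
  rw [← Finset.mul_sum]
  ring

end Pool.Agent.LDS
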